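import Pool.Agent.H163R2.CdVE.EDefs
import Pool.Agent.H163R2.CdVE.EP

set_option autoImplicit false

/-! TASK EBC of project CdVE (helper163): table h163_tasks, statement must not change. -/

namespace Pool.Agent.H163R2.CdV

open Finset Matrix Topology

open Classical in
/-- TASK EBC: few bijections have a good opposite pair `b, a` with more than `K` possibly uncovered
common neighbours. -/
theorem count_unc {W : Type} [Fintype W] [DecidableEq W] (H : SimpleGraph W)
    (Bad : W → W → Prop) (hadj : ∀ a b, H.Adj a b → Bad a b)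
    (D T k L K r : ℕ) (hcard : Fintype.card W = 2 * k * L)
    (hD : ∀ w, (Finset.univ.filter (fun w' => H.Adj w w')).card ≤ D)
    (hT : ∀ a b, ¬ Bad a b → (Finset.univ.filter (fun w => H.Adj a w ∧ H.Adj b w)).card ≤ T)
    (hK : 2 * L * r ≤ K) :
    ((Finset.univ.filter (fun π : W ≃ Pos k L =>
        ∃ a b, ¬ Bad a b ∧ (π b).1 = true ∧ Opp π b a ∧
          K < (Finset.univ.filter (fun b' => H.Adj b b' ∧ H.Adj a b' ∧ (π b').1 = true ∧
            ∃ a', H.Adj b a' ∧ Opp π b' a')).card)).card : ℝ) * ((K : ℝ) / 2) ^ r ≤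
      (Fintype.card W : ℝ) ^ 2 * ((T : ℝ) * D) ^ r * ((Fintype.card W : ℝ) * L) ^ (r + 1) *
        ((Fintype.card W - (2 * r + 2)).factorial : ℝ) := by
  sorry

end Pool.Agent.H163R2.CdV
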