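import Pool.Agent.H163R2.CdVE.EDefs

set_option autoImplicit false

/-! TASK EH of project CdVE (helper163): table h163_tasks, statement must not change. -/

namespace Pool.Agent.H163R2.CdV

open Finset Matrix Topology

open Classical in
/-- the places of one side of one block -/
theorem hall_cls_card {W : Type} [Fintype W] [DecidableEq W] (k L : ℕ) (π : W ≃ Pos k L)
    (c : Bool) (i : Fin k) :
    (Finset.univ.filter (fun w => (π w).1 = c ∧ (π w).2.1 = i)).card = L := by
  have h : (Finset.univ.filter (fun w => (π w).1 = c ∧ (π w).2.1 = i)) =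
      (Finset.univ : Finset (Fin L)).image (fun j => π.symm (c, i, j)) := by
    ext w
    simp only [Finset.mem_filter, Finset.mem_univ, true_and, Finset.mem_image]
    constructor
    · rintro ⟨h1, h2⟩
      refine ⟨(π w).2.2, ?_⟩
      rw [Equiv.symm_apply_eq]
      ext <;> simp [h1, h2]
    · rintro ⟨j, rfl⟩
      simp
  rw [h, Finset.card_image_of_injective]
  · simp
  · intro j j' hj
    have := π.symm.injective hj
    simpa using this

open Classical in
/-- TASK EH: Hall in every block. -/
theorem hall_blocks {W : Type} [Fintype W] [DecidableEq W] (Bad : W → W → Prop)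
    (hsymm : ∀ a b, Bad a b → Bad b a) (k r : ℕ) (hr : 1 ≤ r) (π : W ≃ Pos k (2 * r))
    (hπ : ∀ w, (Finset.univ.filter (fun w' => Bad w w' ∧ Opp π w w')).card ≤ r) :
    ∃ x : W → W, (∀ b b', (π b).1 = true → (π b').1 = true → x b = x b' → b = b') ∧
      ∀ b, (π b).1 = true → Opp π b (x b) ∧ ¬ Bad (x b) b := by
  classical
  -- Hall condition
  let t : {b : W // (π b).1 = true} → Finset W := fun b =>
    Finset.univ.filter (fun a => Opp π b.1 a ∧ ¬ Bad b.1 a)
  have key : ∀ s : Finset {b : W // (π b).1 = true}, s.card ≤ (s.biUnion t).card := by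
    intro s
    have h1 : s.card = ∑ i : Fin k, (s.filter (fun b => (π b.1).2.1 = i)).card :=
      Finset.card_eq_sum_card_fiberwise (fun b _ => Finset.mem_univ _)
    have h2 : (s.biUnion t).card =
        ∑ i : Fin k, ((s.biUnion t).filter (fun a => (π a).2.1 = i)).card :=
      Finset.card_eq_sum_card_fiberwise (fun b _ => Finset.mem_univ _)
    rw [h1, h2]
    refine Finset.sum_le_sum (fun i _ => ?_)
    rcases Finset.eq_empty_or_nonempty (s.filter (fun b => (π b.1).2.1 = i)) with h0 | h0
    · rw [h0]; simp
    by_cases hc : (s.filter (fun b => (π b.1).2.1 = i)).card ≤ r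
    · obtain ⟨b, hb⟩ := h0
      rw [Finset.mem_filter] at hb
      have hsub : t b ⊆ (s.biUnion t).filter (fun a => (π a).2.1 = i) := by
        intro a ha
        rw [Finset.mem_filter]
        refine ⟨Finset.mem_biUnion.2 ⟨b, hb.1, ha⟩, ?_⟩
        have := (Finset.mem_filter.1 ha).2.1.2
        rw [this, hb.2]
      have hcard : r ≤ (t b).card := by
        have hall := hall_cls_card k (2 * r) π false ((π b.1).2.1)
        have hsplit : (Finset.univ.filter
            (fun w => (π w).1 = false ∧ (π w).2.1 = (π b.1).2.1)) ⊆
            t b ∪ Finset.univ.filter (fun w' => Bad b.1 w' ∧ Opp π b.1 w') := by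
          intro w hw
          rw [Finset.mem_filter] at hw
          have hopp : Opp π b.1 w := by
            refine ⟨?_, hw.2.2⟩
            rw [hw.2.1, b.2]; simp
          rw [Finset.mem_union]
          by_cases hbad : Bad b.1 w
          · right
            rw [Finset.mem_filter]
            exact ⟨Finset.mem_univ _, hbad, hopp⟩
          · left
            exact Finset.mem_filter.2 ⟨Finset.mem_univ _, hopp, hbad⟩
        have h3 := Finset.card_le_card hsplit
        have h4 := Finset.card_union_le (t b)
          (Finset.univ.filter (fun w' => Bad b.1 w' ∧ Opp π b.1 w'))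
        have h5 := hπ b.1
        rw [hall] at h3
        omega
      exact hc.trans (hcard.trans (Finset.card_le_card hsub))
    · push Not at hc
      have hsub : Finset.univ.filter (fun w => (π w).1 = false ∧ (π w).2.1 = i) ⊆
          (s.biUnion t).filter (fun a => (π a).2.1 = i) := by
        intro a ha
        rw [Finset.mem_filter] at ha
        rw [Finset.mem_filter]
        refine ⟨?_, ha.2.2⟩
        by_contra hcon
        rw [Finset.mem_biUnion] at hcon
        push Not at hcon
        have himg : ((s.filter (fun b => (π b.1).2.1 = i)).map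
            ⟨Subtype.val, Subtype.val_injective⟩) ⊆
            Finset.univ.filter (fun w' => Bad a w' ∧ Opp π a w') := by
          intro w hw
          rw [Finset.mem_map] at hw
          obtain ⟨b, hb, rfl⟩ := hw
          rw [Finset.mem_filter] at hb
          have hopp : Opp π b.1 a := by
            refine ⟨?_, ?_⟩
            · rw [ha.2.1, b.2]; simp
            · rw [ha.2.2, hb.2]
          have hopp' : Opp π a b.1 := ⟨fun h => hopp.1 h.symm, hopp.2.symm⟩
          have hnot := hcon b hb.1
          rw [Finset.mem_filter]
          refine ⟨Finset.mem_univ _, ?_, hopp'⟩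
          by_contra hbad
          exact hnot (Finset.mem_filter.2 ⟨Finset.mem_univ _, hopp, fun h => hbad (hsymm _ _ h)⟩)
        have h3 := Finset.card_le_card himg
        rw [Finset.card_map] at h3
        have h5 := hπ a
        omega
      have h6 := Finset.card_le_card hsub
      rw [hall_cls_card k (2 * r) π false i] at h6
      have himg : ((s.filter (fun b => (π b.1).2.1 = i)).map
            ⟨Subtype.val, Subtype.val_injective⟩) ⊆
            Finset.univ.filter (fun w => (π w).1 = true ∧ (π w).2.1 = i) := by
        intro w hw
        rw [Finset.mem_map] at hw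
        obtain ⟨b, hb, rfl⟩ := hw
        rw [Finset.mem_filter] at hb
        exact Finset.mem_filter.2 ⟨Finset.mem_univ _, b.2, hb.2⟩
      have h7 := Finset.card_le_card himg
      rw [Finset.card_map, hall_cls_card k (2 * r) π true i] at h7
      exact h7.trans h6
  obtain ⟨f, hf1, hf2⟩ := (Finset.all_card_le_biUnion_card_iff_exists_injective t).1 key
  refine ⟨fun w => if h : (π w).1 = true then f ⟨w, h⟩ else w, ?_, ?_⟩
  · intro b b' hb hb' hbb
    simp only [hb, hb', dif_pos] at hbb
    have := hf1 hbb
    simpa using this
  · intro b hb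
    simp only [hb, dif_pos]
    have := (Finset.mem_filter.1 (hf2 ⟨b, hb⟩)).2
    exact ⟨this.1, fun h => this.2 (hsymm _ _ h)⟩

end Pool.Agent.H163R2.CdV
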