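import Pool.Agent.H163R2.CdVE.EBA
import Pool.Agent.H163R2.CdVE.EBC
import Pool.Agent.H163R2.CdVE.EH

set_option autoImplicit false

/-! TASK EB of project CdVE (helper163): table h163_tasks, statement must not change. -/

namespace Pool.Agent.H163R2.CdV

open Finset Matrix Topology

theorem EB_fact {N q : ℕ} (h : 2 * q ≤ N) :
    ((N - q).factorial : ℝ) * ((N : ℝ) / 2) ^ q ≤ (N.factorial : ℝ) := by
  have h1 : (N - q).factorial * N.descFactorial q = N.factorial :=
    Nat.factorial_mul_descFactorial (by omega)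
  have h2 : (N + 1 - q) ^ q ≤ N.descFactorial q := Nat.pow_sub_le_descFactorial N q
  have h3 : ((N : ℝ) / 2) ≤ ((N + 1 - q : ℕ) : ℝ) := by
    have : ((N + 1 - q : ℕ) : ℝ) = (N : ℝ) + 1 - q := by
      rw [Nat.cast_sub (by omega)]
      push_cast
      ring
    rw [this]
    have h4 : (2 * q : ℝ) ≤ N := by exact_mod_cast h
    linarith
  calc ((N - q).factorial : ℝ) * ((N : ℝ) / 2) ^ q
      ≤ ((N - q).factorial : ℝ) * (((N + 1 - q : ℕ) : ℝ)) ^ q :=
        mul_le_mul_of_nonneg_left (pow_le_pow_left₀ (by positivity) h3 q) (by positivity)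
    _ ≤ ((N - q).factorial : ℝ) * (N.descFactorial q : ℝ) :=
        mul_le_mul_of_nonneg_left (by exact_mod_cast h2) (by positivity)
    _ = (N.factorial : ℝ) := by exact_mod_cast h1

theorem EB_key {E : Type} [Fintype E] [DecidableEq E] {N β r T D K : ℕ} (hr : 1 ≤ r)
    (hE : Fintype.card E = N.factorial) (hK : 1 ≤ K) (hN : 2 * (2 * r + 2) ≤ N)
    (h1 : 4 * (N : ℝ) * (4 * r * β / (N : ℝ)) ^ r < 1 / 2)
    (h2 : 8 * r * (N : ℝ) * (32 * r * T * D / (K * (N : ℝ))) ^ r < 1 / 2)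
    (FA FC : Finset E) (hA : FA.card ≤ N ^ 2 * β ^ r * (2 * r) ^ r * (N - (r + 1)).factorial)
    (hC : (FC.card : ℝ) * ((K : ℝ) / 2) ^ r ≤
      (N : ℝ) ^ 2 * ((T : ℝ) * D) ^ r * ((N : ℝ) * (2 * r : ℕ)) ^ (r + 1) *
        ((N - (2 * r + 2)).factorial : ℝ)) :
    ∃ π : E, π ∉ FA ∧ π ∉ FC := by
  have hNpos : (0 : ℝ) < N := by
    have : 0 < N := by omega
    exact_mod_cast this
  have hKpos : (0 : ℝ) < K := by exact_mod_cast hK
  have hfpos : (0 : ℝ) < (N.factorial : ℝ) := by exact_mod_cast Nat.factorial_pos N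
  -- the first set
  have cA : (FA.card : ℝ) ≤ (N.factorial : ℝ) * (2 * N * (4 * r * β / (N : ℝ)) ^ r) := by
    have e1 : (N : ℝ) ^ 2 * (β : ℝ) ^ r * (2 * r : ℝ) ^ r =
        2 * N * (4 * r * β / (N : ℝ)) ^ r * ((N : ℝ) / 2) ^ (r + 1) := by
      have e2 : (4 * r * β / (N : ℝ)) ^ r * ((N : ℝ) / 2) ^ r = (β : ℝ) ^ r * (2 * r : ℝ) ^ r := by
        rw [← mul_pow, ← mul_pow]
        congr 1
        field_simp
        ring
      rw [pow_succ]
      calc (N : ℝ) ^ 2 * (β : ℝ) ^ r * (2 * r : ℝ) ^ r = (N : ℝ) ^ 2 * ((β : ℝ) ^ r * (2 * r : ℝ) ^ r) := by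
            ring
        _ = (N : ℝ) ^ 2 * ((4 * r * β / (N : ℝ)) ^ r * ((N : ℝ) / 2) ^ r) := by rw [e2]
        _ = _ := by ring
    have e3 : (FA.card : ℝ) ≤ (N : ℝ) ^ 2 * (β : ℝ) ^ r * (2 * r : ℝ) ^ r *
        ((N - (r + 1)).factorial : ℝ) := by exact_mod_cast hA
    have e4 := EB_fact (N := N) (q := r + 1) (by omega)
    rw [e1] at e3
    calc (FA.card : ℝ) ≤ 2 * N * (4 * r * β / (N : ℝ)) ^ r * ((N : ℝ) / 2) ^ (r + 1) *
          ((N - (r + 1)).factorial : ℝ) := e3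
      _ = 2 * N * (4 * r * β / (N : ℝ)) ^ r * (((N - (r + 1)).factorial : ℝ) *
          ((N : ℝ) / 2) ^ (r + 1)) := by ring
      _ ≤ 2 * N * (4 * r * β / (N : ℝ)) ^ r * (N.factorial : ℝ) :=
          mul_le_mul_of_nonneg_left e4 (by positivity)
      _ = _ := by ring
  -- the second set
  have cC : (FC.card : ℝ) ≤ (N.factorial : ℝ) *
      (8 * r * (N : ℝ) * (32 * r * T * D / (K * (N : ℝ))) ^ r) := by
    have hpos : (0 : ℝ) < ((K : ℝ) / 2) ^ r * ((N : ℝ) / 2) ^ (2 * r + 2) := by positivity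
    have e4 := EB_fact (N := N) (q := 2 * r + 2) (by omega)
    have e5 : (N : ℝ) ^ 2 * ((T : ℝ) * D) ^ r * ((N : ℝ) * (2 * r : ℕ)) ^ (r + 1) ≤
        (8 * r * (N : ℝ) * (32 * r * T * D / (K * (N : ℝ))) ^ r) *
          (((K : ℝ) / 2) ^ r * ((N : ℝ) / 2) ^ (2 * r + 2)) := by
      have e6 : (32 * r * T * D / (K * (N : ℝ))) ^ r * ((K : ℝ) / 2) ^ r * ((N : ℝ) / 2) ^ (2 * r) =
          (4 * r * T * D * N : ℝ) ^ r := by
        rw [pow_mul, ← mul_pow, ← mul_pow]
        congr 1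
        field_simp
        ring
      have e7 : ((T : ℝ) * D) ^ r * ((N : ℝ) * (2 * r : ℕ)) ^ r ≤ (4 * r * T * D * N : ℝ) ^ r := by
        rw [← mul_pow]
        refine pow_le_pow_left₀ (by positivity) ?_ r
        push_cast
        have : (0 : ℝ) ≤ T * D * N * r := by positivity
        nlinarith
      calc (N : ℝ) ^ 2 * ((T : ℝ) * D) ^ r * ((N : ℝ) * (2 * r : ℕ)) ^ (r + 1)
          = 2 * r * (N : ℝ) ^ 3 * (((T : ℝ) * D) ^ r * ((N : ℝ) * (2 * r : ℕ)) ^ r) := by
            rw [pow_succ]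
            push_cast
            ring
        _ ≤ 2 * r * (N : ℝ) ^ 3 * (4 * r * T * D * N : ℝ) ^ r :=
            mul_le_mul_of_nonneg_left e7 (by positivity)
        _ = 2 * r * (N : ℝ) ^ 3 * ((32 * r * T * D / (K * (N : ℝ))) ^ r * ((K : ℝ) / 2) ^ r *
              ((N : ℝ) / 2) ^ (2 * r)) := by rw [e6]
        _ = _ := by
            rw [pow_add ((N : ℝ) / 2)]
            ring
    refine le_of_mul_le_mul_right ?_ hpos
    calc (FC.card : ℝ) * (((K : ℝ) / 2) ^ r * ((N : ℝ) / 2) ^ (2 * r + 2))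
        = ((FC.card : ℝ) * ((K : ℝ) / 2) ^ r) * ((N : ℝ) / 2) ^ (2 * r + 2) := by ring
      _ ≤ ((N : ℝ) ^ 2 * ((T : ℝ) * D) ^ r * ((N : ℝ) * (2 * r : ℕ)) ^ (r + 1) *
        ((N - (2 * r + 2)).factorial : ℝ)) * ((N : ℝ) / 2) ^ (2 * r + 2) :=
          mul_le_mul_of_nonneg_right hC (by positivity)
      _ = ((N : ℝ) ^ 2 * ((T : ℝ) * D) ^ r * ((N : ℝ) * (2 * r : ℕ)) ^ (r + 1)) *
        (((N - (2 * r + 2)).factorial : ℝ) * ((N : ℝ) / 2) ^ (2 * r + 2)) := by ring
      _ ≤ ((8 * r * (N : ℝ) * (32 * r * T * D / (K * (N : ℝ))) ^ r) *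
          (((K : ℝ) / 2) ^ r * ((N : ℝ) / 2) ^ (2 * r + 2))) * (N.factorial : ℝ) :=
          mul_le_mul e5 e4 (by positivity) (by positivity)
      _ = _ := by ring
  by_contra hcon
  push Not at hcon
  have hsub : (Finset.univ : Finset E) ⊆ FA ∪ FC := by
    intro π _
    rw [Finset.mem_union]
    by_cases hp : π ∈ FA
    · exact Or.inl hp
    · exact Or.inr (hcon π hp)
  have hle := (Finset.card_le_card hsub).trans (Finset.card_union_le _ _)
  rw [Finset.card_univ, hE] at hle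
  have hle' : (N.factorial : ℝ) ≤ FA.card + FC.card := by exact_mod_cast hle
  have t1 : (N.factorial : ℝ) * (2 * N * (4 * r * β / (N : ℝ)) ^ r) ≤ (N.factorial : ℝ) * (1 / 4) :=
    mul_le_mul_of_nonneg_left (by linarith) hfpos.le
  have t2 : (N.factorial : ℝ) * (8 * r * (N : ℝ) * (32 * r * T * D / (K * (N : ℝ))) ^ r) ≤
      (N.factorial : ℝ) * (1 / 2) := mul_le_mul_of_nonneg_left h2.le hfpos.le
  linarith

open Classical in
/-- TASK EB: existence of the pairing. -/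
theorem exists_pairing {W : Type} [Fintype W] [DecidableEq W] (H : SimpleGraph W)
    (Bad : W → W → Prop) (hsymm : ∀ a b, Bad a b → Bad b a) (hadj : ∀ a b, H.Adj a b → Bad a b)
    (D T β k K r : ℕ) (hr : 1 ≤ r) (hcard : Fintype.card W = 2 * k * (2 * r))
    (hD : ∀ w, (Finset.univ.filter (fun w' => H.Adj w w')).card ≤ D)
    (hβ : ∀ w, (Finset.univ.filter (fun w' => Bad w w')).card ≤ β)
    (hT : ∀ a b, ¬ Bad a b → (Finset.univ.filter (fun w => H.Adj a w ∧ H.Adj b w)).card ≤ T)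
    (hK : 2 * (2 * r) * r ≤ K) (hN : 2 * (2 * r + 2) ≤ Fintype.card W)
    (h1 : 4 * (Fintype.card W : ℝ) * (4 * r * β / (Fintype.card W : ℝ)) ^ r < 1 / 2)
    (h2 : 8 * r * (Fintype.card W : ℝ) *
      (32 * r * T * D / (K * (Fintype.card W : ℝ))) ^ r < 1 / 2) :
    ∃ (B : Finset W) (x : W → W), 2 * B.card = Fintype.card W ∧
      (∀ b ∈ B, x b ∉ B) ∧ (∀ b ∈ B, ∀ b' ∈ B, x b = x b' → b = b') ∧
      (∀ b ∈ B, ¬ Bad (x b) b) ∧
      (∀ b ∈ B, (B.filter (fun b' => H.Adj b b' ∧ H.Adj (x b) b' ∧ H.Adj (x b') b)).card ≤ K) := by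
  have hcP : Fintype.card (Pos k (2 * r)) = Fintype.card W := by
    rw [hcard]
    simp [Pos]
    ring
  have hce : Fintype.card (W ≃ Pos k (2 * r)) = (Fintype.card W).factorial :=
    Fintype.card_equiv (Fintype.equivOfCardEq hcP.symm)
  have A := count_bad Bad β k (2 * r) r hcard hβ
  have C := count_unc H Bad hadj D T k (2 * r) K r hcard hD hT hK
  obtain ⟨π, hπA, hπC⟩ := EB_key hr hce (by nlinarith) hN h1 h2 _ _ A C
  rw [Finset.mem_filter] at hπA hπC
  have hA' : ∀ w, (Finset.univ.filter (fun w' => Bad w w' ∧ Opp π w w')).card ≤ r := by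
    intro w
    by_contra hw
    exact hπA ⟨Finset.mem_univ _, w, not_le.1 hw⟩
  obtain ⟨x, hx1, hx2⟩ := hall_blocks Bad hsymm k r hr π hA'
  refine ⟨Finset.univ.filter (fun w => (π w).1 = true), x, ?_, ?_, ?_, ?_, ?_⟩
  · have e1 : (Finset.univ.filter (fun w => (π w).1 = true)).card =
        (Finset.univ.filter (fun p : Pos k (2 * r) => p.1 = true)).card := by
      refine Finset.card_bij (fun w _ => π w) ?_ ?_ ?_
      · intro w hw
        simpa using hw
      · intro w _ w' _ h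
        exact π.injective h
      · intro p hp
        refine ⟨π.symm p, ?_, by simp⟩
        simpa using hp
    have e2 : (Finset.univ.filter (fun p : Pos k (2 * r) => p.1 = true)).card = k * (2 * r) := by
      have e3 : (Finset.univ.filter (fun p : Pos k (2 * r) => p.1 = true)) =
          ({true} : Finset Bool) ×ˢ (Finset.univ : Finset (Fin k × Fin (2 * r))) := by
        ext ⟨c, q⟩
        simp only [Finset.mem_filter, Finset.mem_univ, true_and, Finset.mem_product,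
          Finset.mem_singleton, and_true]
      rw [e3, Finset.card_product]
      simp
    rw [e1, e2, hcard]
    ring
  · intro b hb
    rw [Finset.mem_filter] at hb ⊢
    have := (hx2 b hb.2).1.1
    rw [hb.2] at this
    exact fun h => this h.2
  · intro b hb b' hb' h
    rw [Finset.mem_filter] at hb hb'
    exact hx1 b b' hb.2 hb'.2 h
  · intro b hb
    rw [Finset.mem_filter] at hb
    exact (hx2 b hb.2).2
  · intro b hb
    rw [Finset.mem_filter] at hb
    by_contra hcon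
    rw [not_le] at hcon
    refine hπC ⟨Finset.mem_univ _, x b, b, (hx2 b hb.2).2, hb.2, (hx2 b hb.2).1,
      lt_of_lt_of_le hcon (Finset.card_le_card ?_)⟩
    intro b' hb'
    simp only [Finset.mem_filter, Finset.mem_univ, true_and] at hb' ⊢
    exact ⟨hb'.2.1, hb'.2.2.1, hb'.1, x b', hb'.2.2.2.symm, (hx2 b' hb'.1).1⟩

end Pool.Agent.H163R2.CdV
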