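import Pool.Agent.H163R2.CdVE.EDefs
import Pool.Agent.H163R2.CdVE.EP

set_option autoImplicit false

/-! TASK EBA of project CdVE (helper163): table h163_tasks, statement must not change. -/

namespace Pool.Agent.H163R2.CdV

open Finset Matrix Topology

open Classical in
/-- positions of a vertex and `r` opposite vertices -/
noncomputable def EBA_S (k L r : ℕ) : Finset (Fin (r + 1) → Pos k L) :=
  Finset.univ.filter (fun p => ∀ i : Fin r, (p i.succ).1 ≠ (p 0).1 ∧ (p i.succ).2.1 = (p 0).2.1)

theorem EBA_card_S (k L r : ℕ) : (EBA_S k L r).card ≤ (2 * k * L) * L ^ r := by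
  classical
  have h1 : (EBA_S k L r).card ≤ (Finset.univ : Finset (Pos k L × (Fin r → Fin L))).card := by
    refine Finset.card_le_card_of_injOn (fun p => (p 0, fun i : Fin r => (p i.succ).2.2))
      (fun _ _ => Finset.mem_coe.mpr (Finset.mem_univ _)) ?_
    intro p hp p' hp' h
    simp only [EBA_S, Finset.coe_filter, Finset.mem_univ, true_and, Set.mem_ofPred_eq] at hp hp'
    simp only [Prod.mk.injEq] at h
    obtain ⟨h0, h2⟩ := h
    funext i
    refine Fin.cases h0 (fun i => ?_) i
    obtain ⟨a1, a2⟩ := hp i
    obtain ⟨b1, b2⟩ := hp' i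
    have h3 := congrFun h2 i
    refine Prod.ext ?_ (Prod.ext ?_ h3)
    · rw [h0] at a1
      revert a1 b1
      generalize (p i.succ).1 = x
      generalize (p' i.succ).1 = y
      generalize (p' 0).1 = z
      cases x <;> cases y <;> cases z <;> simp
    · rw [a2, b2, h0]
  refine h1.trans (le_of_eq ?_)
  simp only [Finset.card_univ, Fintype.card_prod, Fintype.card_bool, Fintype.card_fin,
    Fintype.card_fun]
  ring

open Classical in
/-- TASK EBA: few bijections put more than `r` bad partners opposite to some `w`. -/
theorem count_bad {W : Type} [Fintype W] [DecidableEq W] (Bad : W → W → Prop)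
    (β k L r : ℕ) (hcard : Fintype.card W = 2 * k * L)
    (hβ : ∀ w, (Finset.univ.filter (fun w' => Bad w w')).card ≤ β) :
    (Finset.univ.filter (fun π : W ≃ Pos k L =>
        ∃ w, r < (Finset.univ.filter (fun w' => Bad w w' ∧ Opp π w w')).card)).card ≤
      (Fintype.card W) ^ 2 * β ^ r * L ^ r * (Fintype.card W - (r + 1)).factorial := by
  have hWP : Fintype.card W = Fintype.card (Pos k L) := by
    rw [hcard]
    simp only [Fintype.card_prod, Fintype.card_bool, Fintype.card_fin]
    ring
  set X : W → Finset (Fin r → W) := fun w =>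
    (Fintype.piFinset (fun _ : Fin r => Finset.univ.filter (fun w' => Bad w w'))).filter
      (fun u => Function.Injective (Fin.cons w u : Fin (r + 1) → W)) with hX
  have hXc : ∀ w, (X w).card ≤ β ^ r := by
    intro w
    refine (Finset.card_filter_le _ _).trans ?_
    rw [Fintype.card_piFinset, Finset.prod_const, Finset.card_univ, Fintype.card_fin]
    exact Nat.pow_le_pow_left (hβ w) r
  have hsub : (Finset.univ.filter (fun π : W ≃ Pos k L =>
        ∃ w, r < (Finset.univ.filter (fun w' => Bad w w' ∧ Opp π w w')).card)) ⊆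
      (Finset.univ : Finset W).biUnion (fun w => (X w).biUnion (fun u =>
        Finset.univ.filter (fun π : W ≃ Pos k L =>
          (fun i => π ((Fin.cons w u : Fin (r + 1) → W) i)) ∈ EBA_S k L r))) := by
    intro π hπ
    simp only [Finset.mem_filter, Finset.mem_univ, true_and] at hπ
    obtain ⟨w, hw⟩ := hπ
    set T : Finset W := Finset.univ.filter (fun w' => Bad w w' ∧ Opp π w w') with hT
    have h1 : Fintype.card (Fin r) ≤ Fintype.card (T : Set W) := by
      rw [Fintype.card_fin]
      have : Fintype.card (T : Set W) = T.card := by simp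
      rw [this]
      exact hw.le
    obtain ⟨φ⟩ := Function.Embedding.nonempty_of_card_le h1
    have hφ : ∀ i, Bad w (φ i : W) ∧ Opp π w (φ i : W) := by
      intro i
      have h5 : (φ i : W) ∈ T := Finset.mem_coe.mp (φ i).2
      exact (Finset.mem_filter.mp h5).2
    simp only [Finset.mem_biUnion, Finset.mem_univ, true_and]
    refine ⟨w, fun i => (φ i : W), ?_, ?_⟩
    · simp only [hX, Finset.mem_filter, Fintype.mem_piFinset, Finset.mem_univ, true_and]
      refine ⟨fun i => (hφ i).1, ?_⟩
      rw [Fin.cons_injective_iff]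
      refine ⟨?_, ?_⟩
      · rintro ⟨i, hi⟩
        have hi' : (φ i : W) = w := hi
        exact (hφ i).2.1 (by rw [hi'])
      · intro i j hij
        exact φ.injective (Subtype.ext hij)
    · simp only [Finset.mem_filter, Finset.mem_univ, true_and, EBA_S]
      intro i
      simp only [Fin.cons_succ, Fin.cons_zero]
      exact (hφ i).2
  refine (Finset.card_le_card hsub).trans ?_
  refine (Finset.card_biUnion_le).trans ?_
  have h2 : ∀ w ∈ (Finset.univ : Finset W), ((X w).biUnion (fun u =>
        Finset.univ.filter (fun π : W ≃ Pos k L =>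
          (fun i => π ((Fin.cons w u : Fin (r + 1) → W) i)) ∈ EBA_S k L r))).card ≤
      β ^ r * (((2 * k * L) * L ^ r) * (Fintype.card W - (r + 1)).factorial) := by
    intro w _
    refine (Finset.card_biUnion_le).trans ?_
    have h3 : ∀ u ∈ X w, (Finset.univ.filter (fun π : W ≃ Pos k L =>
          (fun i => π ((Fin.cons w u : Fin (r + 1) → W) i)) ∈ EBA_S k L r)).card ≤
        ((2 * k * L) * L ^ r) * (Fintype.card W - (r + 1)).factorial := by
      intro u hu
      have hu' := (Finset.mem_filter.mp hu).2
      have h4 := count_equiv hWP (r + 1) (Fin.cons w u : Fin (r + 1) → W) hu' (EBA_S k L r)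
      refine le_trans (le_of_eq ?_) (h4.trans (Nat.mul_le_mul_right _ (EBA_card_S k L r)))
      congr
    refine (Finset.sum_le_card_nsmul _ _ _ h3).trans ?_
    rw [smul_eq_mul]
    exact Nat.mul_le_mul_right _ (hXc w)
  refine (Finset.sum_le_card_nsmul _ _ _ h2).trans (le_of_eq ?_)
  rw [Finset.card_univ, smul_eq_mul, ← hcard]
  ring

end Pool.Agent.H163R2.CdV
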