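import Pool.Agent.H163R2.CdV.Defs

set_option autoImplicit false

/-! Definitions for project CdVE (exact theorem). -/

namespace Pool.Agent.H163R2.CdV

open Finset Matrix Topology

/-- positions: two sides (`true` = centres, `false` = partners), `k` blocks, `L` places in each. -/
abbrev Pos (k L : ℕ) : Type := Bool × Fin k × Fin L

/-- `w'` is in the block of `w`, on the other side. -/
def Opp {W : Type} {k L : ℕ} (π : W ≃ Pos k L) (w w' : W) : Prop :=
  (π w').1 ≠ (π w).1 ∧ (π w').2.1 = (π w).2.1

end Pool.Agent.H163R2.CdV
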