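import Mathlib

set_option autoImplicit false

/-! TASK EN of project CdVE (helper163): table h163_tasks, statement must not change. -/

namespace Pool.Agent.H163R2.CdV

open Finset Matrix Topology

theorem EN_pw (r : ℕ) (u q A ρ w : ℝ) (hu : 0 < u) (hq : 1 ≤ q) (hqr : u ^ 16 ≤ q ^ r)
    (hA : 0 ≤ A) (hρ0 : 0 ≤ ρ) (hρ : ρ ≤ A / q) (hw : w ≤ u ^ 4) :
    w * ρ ^ r ≤ A ^ r / u ^ 12 := by
  have h1 : ρ ^ r ≤ A ^ r / u ^ 16 := by
    calc ρ ^ r ≤ (A / q) ^ r := pow_le_pow_left₀ hρ0 hρ r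
      _ = A ^ r / q ^ r := div_pow _ _ _
      _ ≤ A ^ r / u ^ 16 := div_le_div_of_nonneg_left (by positivity) (by positivity) hqr
  calc w * ρ ^ r ≤ u ^ 4 * (A ^ r / u ^ 16) := by
        apply mul_le_mul hw h1 (by positivity) (by positivity)
    _ = A ^ r / u ^ 12 := by
        field_simp

theorem EN_int (n T r : ℕ) (h : T ≤ n) :
    n = (T + (n - T) % (4 * r)) + 2 * ((n - T) / (4 * r)) * (2 * r) := by
  have h1 := Nat.mod_add_div (n - T) (4 * r)
  have h2 : 2 * ((n - T) / (4 * r)) * (2 * r) = 4 * r * ((n - T) / (4 * r)) := by ring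
  rw [h2]
  omega

theorem EN_core (n r : ℕ) (u q : ℝ) (hr : 1 ≤ r) (hu0 : 0 < u) (hx : (n : ℝ) = u ^ 4)
    (hq : 1 ≤ q) (hqr : u ^ 16 ≤ q ^ r) (hc : 4 * (r : ℝ) ^ 2 + 4 * r + 32 ≤ u / q)
    (hlog : 192000 * Real.log (2 * n) ≤ q) (hbig : 16 * (r : ℝ) * (128 * r) ^ r < u ^ 12) :
    ∃ D K T β s k m : ℕ,
      u ^ 3 / q < D + 1 ∧ 1 ≤ K ∧ 1 ≤ T ∧ n = s + 2 * k * (2 * r) ∧ 1 ≤ s ∧
      (D : ℝ) + (D : ℝ) ^ 2 / T + K * D ≤ β ∧ 2 * (2 * r) * r ≤ K ∧ 2 * (2 * r + 2) ≤ n - s ∧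
      (n : ℝ) * (4 * D * s / (K * (n : ℝ))) ^ r < 1 ∧
      4 * ((n - s : ℕ) : ℝ) * (4 * r * β / ((n - s : ℕ) : ℝ)) ^ r < 1 / 2 ∧
      8 * r * ((n - s : ℕ) : ℝ) * (32 * r * T * D / (K * ((n - s : ℕ) : ℝ))) ^ r < 1 / 2 ∧
      6000 * (K : ℝ) ^ 2 * Real.log (2 * n) < m ∧
      (u ^ 2 / q) / 8 + K + m + 1 ≤ (s : ℝ) / 2 := by
  have hq0 : 0 < q := by linarith
  have hr1 : (1 : ℝ) ≤ r := by exact_mod_cast hr
  set c := u / q with hcd
  set t := u ^ 2 / q with htd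
  set a := u ^ 3 / q with had
  have hrr : 0 ≤ 4 * (r : ℝ) ^ 2 := by positivity
  have hc32 : 32 ≤ c := by linarith
  have hcu : c ≤ u := div_le_self hu0.le hq
  have hu32 : 32 ≤ u := hc32.trans hcu
  have hqu : q ≤ u := by
    have : 1 ≤ u / q := by linarith
    rwa [le_div_iff₀ hq0, one_mul] at this
  have htc : t = c * u := by rw [htd, hcd]; ring
  have hac : a = t * u := by rw [had, htd]; ring
  have htct : c ≤ t := by
    rw [htc]; exact le_mul_of_one_le_right (by linarith) (by linarith)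
  have htbig : 4 * (r : ℝ) + 32 ≤ t := by linarith
  have ht0 : 0 < t := by linarith
  have hc0 : 0 < c := by linarith
  have ha0 : 0 < a := by rw [hac]; positivity
  have ht2 : t ≤ u ^ 2 := div_le_self (by positivity) hq
  have hu4 : u ^ 4 = u ^ 2 * u ^ 2 := by ring
  have hu2 : 1024 ≤ u ^ 2 := by
    have := pow_le_pow_left₀ (by norm_num) hu32 2
    linarith
  have hu24 : 1024 * u ^ 2 ≤ u ^ 4 := by
    rw [hu4]; exact mul_le_mul_of_nonneg_right hu2 (by positivity)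
  have hn0 : (0 : ℝ) < n := by rw [hx]; positivity
  -- the integers
  set D := ⌊a⌋₊ with hD
  set K := ⌈c⌉₊ with hK
  set T := ⌈t⌉₊ with hT
  have hD1 : (D : ℝ) ≤ a := Nat.floor_le ha0.le
  have hD2 : a < D + 1 := Nat.lt_floor_add_one a
  have hK1 : c ≤ K := Nat.le_ceil c
  have hK2 : (K : ℝ) < c + 1 := Nat.ceil_lt_add_one hc0.le
  have hT1 : t ≤ T := Nat.le_ceil t
  have hT2 : (T : ℝ) < t + 1 := Nat.ceil_lt_add_one ht0.le
  have hT0 : (0 : ℝ) < T := by linarith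
  have hK0 : (0 : ℝ) < K := by linarith
  have hTn : T ≤ n := by
    have : (T : ℝ) ≤ n := by rw [hx]; linarith
    exact_mod_cast this
  set s := T + (n - T) % (4 * r) with hs
  have h4r : 0 < 4 * r := by omega
  have hmod : (n - T) % (4 * r) < 4 * r := Nat.mod_lt _ h4r
  have hsT : T ≤ s := Nat.le_add_right _ _
  have hs1 : (T : ℝ) ≤ s := by exact_mod_cast hsT
  have hs2 : (s : ℝ) ≤ T + 4 * r := by
    have : s ≤ T + 4 * r := by omega
    exact_mod_cast this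
  have hs3 : (s : ℝ) ≤ 2 * t := by linarith
  have hs0 : (0 : ℝ) < s := by linarith
  have hsn2 : (s : ℝ) ≤ (n : ℝ) / 2 := by rw [hx]; linarith
  have hsn : s ≤ n := by
    have : (s : ℝ) ≤ n := by linarith
    exact_mod_cast this
  have hcast : ((n - s : ℕ) : ℝ) = n - s := by rw [Nat.cast_sub hsn]
  have hns : (n : ℝ) / 2 ≤ ((n - s : ℕ) : ℝ) := by rw [hcast]; linarith
  have hns' : ((n - s : ℕ) : ℝ) ≤ u ^ 4 := by rw [hcast, ← hx]; linarith
  have hns0 : (0 : ℝ) < ((n - s : ℕ) : ℝ) := by linarith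
  set k := (n - T) / (4 * r) with hk
  have hnk : n = s + 2 * k * (2 * r) := EN_int n T r hTn
  set β := ⌈(D : ℝ) + (D : ℝ) ^ 2 / T + K * D⌉₊ with hβ
  set m := ⌊6000 * (K : ℝ) ^ 2 * Real.log (2 * n)⌋₊ + 1 with hm
  have hD0 : (0 : ℝ) ≤ D := Nat.cast_nonneg _
  have hn1 : (1 : ℝ) ≤ n := by rw [hx]; linarith
  have hlog0 : 0 ≤ Real.log (2 * n) := Real.log_nonneg (by linarith)
  -- the bound of `β`
  have hβ1 : (β : ℝ) ≤ 5 * (u ^ 4 / q) := by
    have e1 : (β : ℝ) < ((D : ℝ) + (D : ℝ) ^ 2 / T + K * D) + 1 :=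
      Nat.ceil_lt_add_one (by positivity)
    have e2 : (D : ℝ) ^ 2 / T ≤ u ^ 4 / q := by
      calc (D : ℝ) ^ 2 / T ≤ a ^ 2 / t :=
            div_le_div₀ (by positivity) (pow_le_pow_left₀ hD0 hD1 2) ht0 hT1
        _ = u ^ 4 / q := by rw [had, htd]; field_simp
    have e3 : a ≤ u ^ 4 / q := by
      rw [had]
      apply div_le_div_of_nonneg_right _ hq0.le
      exact pow_le_pow_right₀ (by linarith) (by norm_num)
    have e4 : (K : ℝ) * D ≤ c * a + a := by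
      have := mul_le_mul hK2.le hD1 hD0 (by linarith)
      linarith
    have e5 : c * a ≤ u ^ 4 / q := by
      have : c * a = (u ^ 4 / q) / q := by rw [hcd, had]; field_simp
      rw [this]
      exact div_le_self (by positivity) hq
    have e6 : 1 ≤ u ^ 4 / q := by
      rw [le_div_iff₀ hq0, one_mul]
      exact hqu.trans (le_self_pow₀ (by linarith) (by norm_num))
    linarith
  refine ⟨D, K, T, β, s, k, m, hD2, ?_, ?_, hnk, ?_, Nat.le_ceil _, ?_, ?_, ?_, ?_, ?_, ?_, ?_⟩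
  · exact_mod_cast (by linarith : (1 : ℝ) ≤ K)
  · exact_mod_cast (by linarith : (1 : ℝ) ≤ T)
  · exact_mod_cast (by linarith : (1 : ℝ) ≤ s)
  · have h0 : (2 * (2 * (r : ℝ)) * r) = 4 * (r : ℝ) ^ 2 := by ring
    have : (2 * (2 * (r : ℝ)) * r) ≤ K := by rw [h0]; linarith
    exact_mod_cast this
  · have h1 : (2 * (2 * (r : ℝ) + 2)) ≤ ((n - s : ℕ) : ℝ) := by
      refine le_trans ?_ hns
      rw [hx]
      linarith
    exact_mod_cast h1
  · have hρ : 4 * (D : ℝ) * s / (K * (n : ℝ)) ≤ 8 / q := by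
      have e1 : 4 * (D : ℝ) * s ≤ 4 * a * (2 * t) := by
        have := mul_le_mul hD1 hs3 hs0.le ha0.le
        linarith
      have e2 : c * (n : ℝ) ≤ K * n := mul_le_mul_of_nonneg_right hK1 hn0.le
      calc 4 * (D : ℝ) * s / (K * (n : ℝ)) ≤ 4 * a * (2 * t) / (c * n) :=
            div_le_div₀ (by positivity) e1 (by positivity) e2
        _ = 8 / q := by
          rw [hx, had, htd, hcd]
          field_simp
          ring
    have h1 := EN_pw r u q 8 _ n hu0 hq hqr (by norm_num) (by positivity) hρ hx.le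
    refine lt_of_le_of_lt h1 ?_
    rw [div_lt_one (by positivity)]
    refine lt_of_le_of_lt ?_ hbig
    calc (8 : ℝ) ^ r ≤ (128 * r) ^ r := pow_le_pow_left₀ (by norm_num) (by linarith) r
      _ ≤ 16 * r * (128 * r) ^ r := le_mul_of_one_le_left (by positivity) (by linarith)
  · have hρ : 4 * r * β / ((n - s : ℕ) : ℝ) ≤ 40 * r / q := by
      calc 4 * r * β / ((n - s : ℕ) : ℝ) ≤ 4 * r * (5 * (u ^ 4 / q)) / (n / 2) := by
            apply div_le_div₀ (by positivity) _ (by positivity) hns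
            exact mul_le_mul_of_nonneg_left hβ1 (by positivity)
        _ = 40 * r / q := by
          rw [hx]
          field_simp
          ring
    have h1 := EN_pw r u q (40 * r) _ ((n - s : ℕ) : ℝ) hu0 hq hqr (by positivity)
      (by positivity) hρ hns'
    have h2 : (40 * (r : ℝ)) ^ r / u ^ 12 < 1 / 8 := by
      rw [div_lt_iff₀ (by positivity)]
      have h3 : (40 * (r : ℝ)) ^ r ≤ (128 * r) ^ r :=
        pow_le_pow_left₀ (by positivity) (by linarith) r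
      have h4 : 16 * (128 * (r : ℝ)) ^ r ≤ 16 * r * (128 * r) ^ r := by
        apply mul_le_mul_of_nonneg_right _ (by positivity)
        linarith
      have h5 : 0 ≤ (128 * (r : ℝ)) ^ r := by positivity
      linarith
    rw [mul_assoc]
    linarith
  · have hρ : 32 * r * T * D / (K * ((n - s : ℕ) : ℝ)) ≤ 128 * r / q := by
      calc 32 * r * T * D / (K * ((n - s : ℕ) : ℝ)) ≤ 32 * r * (2 * t) * a / (c * (n / 2)) := by
            apply div_le_div₀ (by positivity) _ (by positivity)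
            · exact mul_le_mul hK1 hns (by positivity) hK0.le
            · have e1 : (T : ℝ) ≤ 2 * t := by linarith
              have e2 : (T : ℝ) * D ≤ 2 * t * a := mul_le_mul e1 hD1 hD0 (by positivity)
              have e3 := mul_le_mul_of_nonneg_left e2 (show (0 : ℝ) ≤ 32 * r by positivity)
              linarith
        _ = 128 * r / q := by
          rw [hx, had, htd, hcd]
          field_simp
          ring
    have h1 := EN_pw r u q (128 * r) _ ((n - s : ℕ) : ℝ) hu0 hq hqr (by positivity)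
      (by positivity) hρ hns'
    have h2 : 8 * r * ((128 * (r : ℝ)) ^ r / u ^ 12) < 1 / 2 := by
      rw [← mul_div_assoc, div_lt_iff₀ (by positivity)]
      linarith
    have h3 := mul_le_mul_of_nonneg_left h1 (show (0 : ℝ) ≤ 8 * r by positivity)
    rw [mul_assoc]
    linarith
  · rw [hm]
    push_cast
    exact Nat.lt_floor_add_one _
  · have e1 : (m : ℝ) ≤ 6000 * (K : ℝ) ^ 2 * Real.log (2 * n) + 1 := by
      rw [hm]
      push_cast
      have := Nat.floor_le (a := 6000 * (K : ℝ) ^ 2 * Real.log (2 * n)) (by positivity)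
      linarith
    have e2 : (K : ℝ) ^ 2 ≤ 4 * c ^ 2 := by
      have := pow_le_pow_left₀ hK0.le (show (K : ℝ) ≤ 2 * c by linarith) 2
      rw [mul_pow] at this
      linarith
    have e3 : 6000 * (K : ℝ) ^ 2 * Real.log (2 * n) ≤ 24000 * c ^ 2 * (q / 192000) := by
      apply mul_le_mul _ _ hlog0 (by positivity)
      · linarith
      · linarith
    have e4 : 24000 * c ^ 2 * (q / 192000) = t / 8 := by
      rw [hcd, htd]
      field_simp
      ring
    have e5 : 4 * c ≤ t / 8 := by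
      rw [htc]
      have := mul_le_mul_of_nonneg_left hu32 hc0.le
      linarith
    linarith

/-- TASK EN (real analysis). -/
theorem numericE (ε : ℝ) (hε : 0 < ε) (hε' : ε ≤ 1 / 8) :
    ∃ n0 : ℕ, ∀ n : ℕ, n0 ≤ n → ∃ D K T β r s k m : ℕ,
      (n : ℝ) ^ (3 / 4 - ε) < D + 1 ∧ 1 ≤ r ∧ 1 ≤ K ∧ 1 ≤ T ∧ n = s + 2 * k * (2 * r) ∧ 1 ≤ s ∧
      (D : ℝ) + (D : ℝ) ^ 2 / T + K * D ≤ β ∧ 2 * (2 * r) * r ≤ K ∧ 2 * (2 * r + 2) ≤ n - s ∧
      (n : ℝ) * (4 * D * s / (K * (n : ℝ))) ^ r < 1 ∧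
      4 * ((n - s : ℕ) : ℝ) * (4 * r * β / ((n - s : ℕ) : ℝ)) ^ r < 1 / 2 ∧
      8 * r * ((n - s : ℕ) : ℝ) * (32 * r * T * D / (K * ((n - s : ℕ) : ℝ))) ^ r < 1 / 2 ∧
      6000 * (K : ℝ) ^ 2 * Real.log (2 * n) < m ∧
      (n : ℝ) ^ (1 / 2 - ε) / 8 + K + m + 1 ≤ (s : ℝ) / 2 := by
  set r : ℕ := ⌈4 / ε⌉₊ with hr
  have hr4 : 4 / ε ≤ r := Nat.le_ceil _
  have hr1 : 1 ≤ r := Nat.one_le_ceil_iff.mpr (by positivity)
  have hr4' : 4 ≤ ε * r := by
    rw [div_le_iff₀ hε] at hr4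
    linarith
  have hnat : Filter.Tendsto (fun n : ℕ => (n : ℝ)) Filter.atTop Filter.atTop :=
    tendsto_natCast_atTop_atTop
  have h1 : ∀ᶠ n : ℕ in Filter.atTop, 4 * (r : ℝ) ^ 2 + 4 * r + 32 ≤ (n : ℝ) ^ (1 / 4 - ε) :=
    ((tendsto_rpow_atTop (show (0 : ℝ) < 1 / 4 - ε by linarith)).comp
      hnat).eventually_ge_atTop _
  have h2 : ∀ᶠ n : ℕ in Filter.atTop, 16 * (r : ℝ) * (128 * r) ^ r + 2 ≤ (n : ℝ) :=
    hnat.eventually_ge_atTop _
  have h3 : ∀ᶠ n : ℕ in Filter.atTop, ‖Real.log (n : ℝ)‖ ≤ (1 / 384000) * ‖(n : ℝ) ^ ε‖ :=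
    hnat.eventually ((isLittleO_log_rpow_atTop hε).bound (by norm_num))
  obtain ⟨n0, hn0⟩ := Filter.eventually_atTop.1 (h1.and (h2.and h3))
  refine ⟨n0, fun n hn => ?_⟩
  obtain ⟨k1, k2, k3⟩ := hn0 n hn
  have hP : (0 : ℝ) ≤ 16 * (r : ℝ) * (128 * r) ^ r := by positivity
  have hn2 : (2 : ℝ) ≤ n := by linarith
  have hn0' : (0 : ℝ) < n := by linarith
  set u : ℝ := (n : ℝ) ^ (1 / 4 : ℝ) with hu
  set q : ℝ := (n : ℝ) ^ ε with hq
  have hu0 : 0 < u := Real.rpow_pos_of_pos hn0' _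
  have hq0 : 0 < q := Real.rpow_pos_of_pos hn0' _
  have hu4 : (n : ℝ) = u ^ 4 := by
    rw [hu, ← Real.rpow_natCast, ← Real.rpow_mul hn0'.le]
    norm_num
  have hq1 : 1 ≤ q := Real.one_le_rpow (by linarith) hε.le
  have hqr : u ^ 16 ≤ q ^ r := by
    have e1 : u ^ 16 = (n : ℝ) ^ (4 : ℝ) := by
      have : u ^ 16 = (u ^ 4) ^ 4 := by ring
      rw [this, ← hu4]
      norm_cast
    rw [e1, hq, ← Real.rpow_natCast ((n : ℝ) ^ ε) r, ← Real.rpow_mul hn0'.le]
    exact Real.rpow_le_rpow_of_exponent_le (by linarith) hr4'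
  have hc : (n : ℝ) ^ (1 / 4 - ε) = u / q := Real.rpow_sub hn0' _ _
  have ht : (n : ℝ) ^ (1 / 2 - ε) = u ^ 2 / q := by
    rw [Real.rpow_sub hn0']
    congr 1
    rw [hu, ← Real.rpow_natCast, ← Real.rpow_mul hn0'.le]
    norm_num
  have ha : (n : ℝ) ^ (3 / 4 - ε) = u ^ 3 / q := by
    rw [Real.rpow_sub hn0']
    congr 1
    rw [hu, ← Real.rpow_natCast, ← Real.rpow_mul hn0'.le]
    norm_num
  rw [hc] at k1
  have hlogn : 0 ≤ Real.log n := Real.log_nonneg (by linarith)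
  have hlog : 192000 * Real.log (2 * n) ≤ q := by
    rw [Real.norm_of_nonneg hlogn, Real.norm_of_nonneg hq0.le] at k3
    have e1 : Real.log (2 * n) ≤ 2 * Real.log n := by
      rw [Real.log_mul (by norm_num) hn0'.ne']
      have := Real.log_le_log (by norm_num) hn2
      linarith
    linarith
  have hbig : 16 * (r : ℝ) * (128 * r) ^ r < u ^ 12 := by
    have e1 : u ^ 12 = (n : ℝ) ^ 3 := by rw [hu4]; ring
    rw [e1]
    have e2 : (n : ℝ) ≤ (n : ℝ) ^ 3 := le_self_pow₀ (by linarith) (by norm_num)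
    linarith
  obtain ⟨D, K, T, β, s, k, m, g⟩ := EN_core n r u q hr1 hu0 hu4 hq1 hqr k1 hlog hbig
  obtain ⟨g1, g2, g3, g4, g5, g6, g7, g8, g9, g10, g11, g12, g13⟩ := g
  refine ⟨D, K, T, β, r, s, k, m, ?_, hr1, g2, g3, g4, g5, g6, g7, g8, g9, g10, g11, g12, ?_⟩
  · rw [ha]; exact g1
  · rw [ht]; exact g13

end Pool.Agent.H163R2.CdV
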