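import Pool.Agent.H163R2.CdVE.ED
import Pool.Agent.H163R2.CdVE.EN
import Pool.Agent.H163R2.CdVE.EB
import Pool.Agent.H163R2.CdVE.EQ

set_option autoImplicit false

/-! TASK EF of project CdVE (helper163): table h163_tasks, statement must not change. -/

namespace Pool.Agent.H163R2.CdV

open Finset Matrix Topology

open Classical in
/-- the number of vertices with many common neighbours with `w` -/
theorem EF_codeg {W : Type} [Fintype W] (H : SimpleGraph W) (D T : ℕ) (hT : 1 ≤ T)
    (hD : ∀ w, (univ.filter (fun w' => H.Adj w w')).card ≤ D) (w : W) :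
    ((univ.filter (fun w' => T < (univ.filter (fun u => H.Adj w u ∧ H.Adj w' u)).card)).card : ℝ)
      ≤ (D : ℝ) ^ 2 / T := by
  set A := univ.filter (fun w' => T < (univ.filter (fun u => H.Adj w u ∧ H.Adj w' u)).card)
    with hA
  have h1 : A.card * T ≤ ∑ w' : W, (univ.filter (fun u => H.Adj w u ∧ H.Adj w' u)).card := by
    rw [← smul_eq_mul]
    refine (card_nsmul_le_sum A _ T fun w' hw' => ?_).trans
      (sum_le_sum_of_subset (subset_univ _))
    exact (mem_filter.mp hw').2.le
  have h2 : ∑ w' : W, (univ.filter (fun u => H.Adj w u ∧ H.Adj w' u)).card =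
      ∑ u : W, (univ.filter (fun w' => H.Adj w u ∧ H.Adj w' u)).card := by
    simp only [card_filter]
    exact sum_comm
  have h3 : ∑ u : W, (univ.filter (fun w' => H.Adj w u ∧ H.Adj w' u)).card ≤ D * D := by
    have h4 : ∀ u : W, (univ.filter (fun w' => H.Adj w u ∧ H.Adj w' u)).card ≤
        if H.Adj w u then D else 0 := by
      intro u
      split_ifs with h
      · refine (card_le_card ?_).trans (hD u)
        intro v hv
        rw [mem_filter] at hv ⊢
        exact ⟨mem_univ _, hv.2.2.symm⟩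
      · rw [Nat.le_zero, card_eq_zero, filter_eq_empty_iff]
        intro v _ hv
        exact h hv.1
    refine (sum_le_sum fun u _ => h4 u).trans ?_
    rw [← sum_filter, sum_const, smul_eq_mul]
    exact Nat.mul_le_mul_right D (hD w)
  have hT0 : (0 : ℝ) < T := by exact_mod_cast hT
  rw [le_div_iff₀ hT0, sq]
  have h5 : A.card * T ≤ D * D := h1.trans (h2.le.trans h3)
  exact_mod_cast h5

open Classical in
/-- TASK EF: every graph on `n` vertices whose complement has maximum degree at most `n^(3/4-ε)`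
has Colin de Verdiere number at least `n/2 + n^(1/2-ε)/8`. -/
theorem finalE (ε : ℝ) (hε : 0 < ε) :
    ∃ n₀ : ℕ, ∀ (V : Type) [Fintype V] [DecidableEq V] (G : SimpleGraph V),
      n₀ ≤ Fintype.card V →
      (∀ v, ((Finset.univ.filter (fun w => Gᶜ.Adj v w)).card : ℝ) ≤
        (Fintype.card V : ℝ) ^ (3 / 4 - ε)) →
      ∃ k : ℕ, MuGE G k ∧
        (Fintype.card V : ℝ) / 2 + (Fintype.card V : ℝ) ^ (1 / 2 - ε) / 8 ≤ k := by
  set ε' : ℝ := min ε (1 / 8) with hε'
  have hε'0 : 0 < ε' := lt_min hε (by norm_num)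
  have hε'8 : ε' ≤ 1 / 8 := min_le_right _ _
  have hε'ε : ε' ≤ ε := min_le_left _ _
  obtain ⟨n0, hn0⟩ := numericE ε' hε'0 hε'8
  refine ⟨max n0 1, ?_⟩
  intro V _ _ G hn hdeg
  set n := Fintype.card V with hnV
  have hn1 : 1 ≤ n := (le_max_right _ _).trans hn
  have hn1' : (1 : ℝ) ≤ n := by exact_mod_cast hn1
  obtain ⟨D, K, T, β, r, s, k, m, c1, hr, hK, hT, c3, hs1, c4, c5, c5', c6, c7, c8, c9, c10⟩ :=
    hn0 n ((le_max_left _ _).trans hn)
  obtain ⟨H, hH⟩ : ∃ H : SimpleGraph V, H = Gᶜ := ⟨_, rfl⟩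
  have hHadj : ∀ a b, H.Adj a b ↔ a ≠ b ∧ ¬ G.Adj a b := by
    intro a b
    rw [hH, SimpleGraph.compl_adj]
  have hHdeg : ∀ v, (univ.filter (fun w => H.Adj v w)).card ≤ D := by
    intro v
    have h1 : ((univ.filter (fun w => H.Adj v w)).card : ℝ) < D + 1 := by
      refine lt_of_le_of_lt ?_ c1
      refine le_trans ?_ (Real.rpow_le_rpow_of_exponent_le hn1'
        (by linarith : (3 / 4 - ε : ℝ) ≤ 3 / 4 - ε'))
      refine le_trans (le_of_eq ?_) (hdeg v)
      subst hH
      norm_cast
      congr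
    have h2 : (univ.filter (fun w => H.Adj v w)).card < D + 1 := by exact_mod_cast h1
    omega
  have hrr : r ≤ r * r := Nat.le_mul_of_pos_left r hr
  have hrK : 2 * r ≤ K := by
    refine le_trans ?_ c5
    nlinarith
  obtain ⟨Q, hQs, hQK⟩ := exists_Q H D K r s hr hrK (by rw [← hnV]; omega)
    (by rw [← hnV]; omega) hHdeg (by rw [← hnV]; exact c6)
  -- the remaining vertices
  let W : Type := {v : V // v ∉ Q}
  have hWc : Fintype.card W = n - s := by
    have h1 : Fintype.card W = Fintype.card V - Q.card := by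
      have := Fintype.card_subtype_compl (fun v : V => v ∈ Q)
      rw [Fintype.card_coe] at this
      exact this
    rw [h1, hQs]
  obtain ⟨H', hH'adj⟩ : ∃ H' : SimpleGraph W, ∀ a b : W, H'.Adj a b ↔ H.Adj a.1 b.1 :=
    ⟨H.comap Subtype.val, fun _ _ => Iff.rfl⟩
  have hval : Function.Injective (Subtype.val : W → V) := Subtype.val_injective
  have hW'deg : ∀ v : V, (univ.filter (fun w' : W => H.Adj v w'.1)).card ≤ D := by
    intro v
    refine le_trans (card_le_card_of_injOn Subtype.val ?_ hval.injOn) (hHdeg v)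
    intro a ha
    rw [mem_coe, mem_filter] at ha ⊢
    exact ⟨mem_univ _, ha.2⟩
  have hH'deg : ∀ w, (univ.filter (fun w' => H'.Adj w w')).card ≤ D := by
    intro w
    refine le_trans (card_le_card ?_) (hW'deg w.1)
    intro w' hw'
    rw [mem_filter] at hw' ⊢
    exact ⟨mem_univ _, (hH'adj _ _).mp hw'.2⟩
  obtain ⟨Bad, hBad⟩ : ∃ Bad : W → W → Prop, ∀ a b, Bad a b ↔ (H'.Adj a b ∨
      T < (univ.filter (fun u => H'.Adj a u ∧ H'.Adj b u)).card ∨
      ∃ q ∈ Q, H.Adj q a.1 ∧ H.Adj q b.1) := ⟨fun a b => H'.Adj a b ∨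
        T < (univ.filter (fun u => H'.Adj a u ∧ H'.Adj b u)).card ∨
        ∃ q ∈ Q, H.Adj q a.1 ∧ H.Adj q b.1, fun _ _ => Iff.rfl⟩
  have hβ : ∀ w, (univ.filter (fun w' => Bad w w')).card ≤ β := by
    intro w
    have h1 : univ.filter (fun w' => Bad w w') ⊆ univ.filter (fun w' => H'.Adj w w') ∪
        (univ.filter (fun w' => T < (univ.filter (fun u => H'.Adj w u ∧ H'.Adj w' u)).card) ∪
        (Q.filter (fun q => H.Adj w.1 q)).biUnion
          (fun q => univ.filter (fun w' : W => H.Adj q w'.1))) := by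
      intro w' hw'
      have h2 := (hBad w w').mp (mem_filter.mp hw').2
      rw [mem_union, mem_union]
      rcases h2 with h2 | h2 | ⟨q, hq, h2, h3⟩
      · exact Or.inl (mem_filter.mpr ⟨mem_univ _, h2⟩)
      · exact Or.inr (Or.inl (mem_filter.mpr ⟨mem_univ _, h2⟩))
      · exact Or.inr (Or.inr (mem_biUnion.mpr ⟨q, mem_filter.mpr ⟨hq, h2.symm⟩,
          mem_filter.mpr ⟨mem_univ _, h3⟩⟩))
    have h2 := (card_le_card h1).trans
      ((card_union_le _ _).trans (add_le_add le_rfl (card_union_le _ _)))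
    have h3 := hH'deg w
    have h4 := EF_codeg H' D T hT hH'deg w
    have h5 : ((Q.filter (fun q => H.Adj w.1 q)).biUnion
        (fun q => univ.filter (fun w' : W => H.Adj q w'.1))).card ≤ K * D := by
      refine card_biUnion_le.trans ?_
      refine (sum_le_card_nsmul _ _ D fun q _ => hW'deg q).trans ?_
      rw [smul_eq_mul]
      exact Nat.mul_le_mul_right D (hQK w.1)
    have h6 : ((univ.filter (fun w' => Bad w w')).card : ℝ) ≤ β := by
      refine le_trans ?_ c4
      have h2' : ((univ.filter (fun w' => Bad w w')).card : ℝ) ≤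
          ((univ.filter (fun w' => H'.Adj w w')).card : ℝ) +
          (((univ.filter (fun w' => T < (univ.filter
            (fun u => H'.Adj w u ∧ H'.Adj w' u)).card)).card : ℝ) +
          (((Q.filter (fun q => H.Adj w.1 q)).biUnion
            (fun q => univ.filter (fun w' : W => H.Adj q w'.1))).card : ℝ)) := by
        exact_mod_cast h2
      have h3' : ((univ.filter (fun w' => H'.Adj w w')).card : ℝ) ≤ D := by exact_mod_cast h3
      have h5' : (((Q.filter (fun q => H.Adj w.1 q)).biUnion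
        (fun q => univ.filter (fun w' : W => H.Adj q w'.1))).card : ℝ) ≤ K * D := by
        exact_mod_cast h5
      linarith
    exact_mod_cast h6
  obtain ⟨B, x, hBc, hxB, hxinj, hxbad, hBK⟩ := exists_pairing H' Bad
    (by
      intro a b h
      rw [hBad] at h ⊢
      rcases h with h | h | ⟨q, hq, h1, h2⟩
      · exact Or.inl h.symm
      · refine Or.inr (Or.inl (lt_of_lt_of_le h (card_le_card ?_)))
        intro u hu
        rw [mem_filter] at hu ⊢
        exact ⟨hu.1, hu.2.2, hu.2.1⟩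
      · exact Or.inr (Or.inr ⟨q, hq, h2, h1⟩))
    (fun a b h => (hBad a b).mpr (Or.inl h)) D T β k K r hr (by rw [hWc]; omega) hH'deg hβ
    (by
      intro a b h
      by_contra hcon
      exact h ((hBad a b).mpr (Or.inr (Or.inl (not_le.mp hcon)))))
    c5 (by rw [hWc]; exact c5') (by rw [hWc]; exact c7) (by rw [hWc]; exact c8)
  set BV : Finset V := B.map ⟨Subtype.val, hval⟩ with hBV
  have hBVmem : ∀ v, v ∈ BV ↔ ∃ b ∈ B, b.1 = v := by
    intro v
    rw [hBV, mem_map]
    rfl
  set xV : V → V := fun v => if h : v ∉ Q then (x ⟨v, h⟩).1 else v with hxV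
  have hxVb : ∀ b : W, xV b.1 = (x b).1 := by
    intro b
    simp only [hxV]
    rw [dif_pos b.2]
  have hnotB : ∀ b : W, b.1 ∈ BV → b ∈ B := by
    intro b hb
    obtain ⟨b', hb', h⟩ := (hBVmem _).mp hb
    rwa [← hval h]
  have hbuild := buildE G K m hK Q BV xV
    (by
      rw [disjoint_left]
      intro q hq hq'
      obtain ⟨b, -, rfl⟩ := (hBVmem _).mp hq'
      exact b.2 hq)
    (by
      intro v hv
      obtain ⟨b, hb, rfl⟩ := (hBVmem _).mp hv
      rw [hxVb]
      exact ⟨(x b).2, fun h => hxB b hb (hnotB _ h)⟩)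
    (by
      intro v hv v' hv' h
      obtain ⟨b, hb, rfl⟩ := (hBVmem _).mp hv
      obtain ⟨b', hb', rfl⟩ := (hBVmem _).mp hv'
      rw [hxVb, hxVb] at h
      rw [hxinj b hb b' hb' (hval h)])
    (by
      intro v hv
      obtain ⟨b, hb, rfl⟩ := (hBVmem _).mp hv
      rw [hxVb]
      by_contra hcon
      apply hxbad b hb
      rw [hBad]
      refine Or.inl ((hH'adj _ _).mpr ((hHadj _ _).mpr ⟨fun h => ?_, hcon⟩))
      have h2 : x b = b := hval h
      exact hxB b hb (by rw [h2]; exact hb))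
    (by
      intro v hv q hq hbq
      obtain ⟨b, hb, rfl⟩ := (hBVmem _).mp hv
      rw [hxVb]
      by_contra hcon
      apply hxbad b hb
      rw [hBad]
      refine Or.inr (Or.inr ⟨q, hq, ?_, ?_⟩)
      · exact ((hHadj _ _).mpr ⟨fun h => (x b).2 (h ▸ hq), hcon⟩ : H.Adj (x b).1 q).symm
      · exact ((hHadj _ _).mpr ⟨fun h => b.2 (h ▸ hq), hbq⟩ : H.Adj b.1 q).symm)
    (by
      intro q _
      refine le_trans (card_le_card ?_) (hQK q)
      intro q' hq'
      rw [mem_filter] at hq' ⊢
      exact ⟨hq'.1, by rw [hH]; exact hq'.2⟩)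
    (by
      intro v hv
      obtain ⟨b, hb, rfl⟩ := (hBVmem _).mp hv
      refine le_trans ?_ (hBK b hb)
      refine le_trans (card_le_card ?_) (card_map ⟨Subtype.val, hval⟩).le
      intro v' hv'
      rw [mem_filter] at hv'
      obtain ⟨h0, h1, h2, h3⟩ := hv'
      obtain ⟨b', hb', rfl⟩ := (hBVmem _).mp h0
      rw [hxVb] at h2 h3
      rw [mem_map]
      refine ⟨b', mem_filter.mpr ⟨hb', ?_, ?_, ?_⟩, rfl⟩
      · exact (hH'adj _ _).mpr (by rw [hH]; exact h1)
      · refine (hH'adj _ _).mpr ((hHadj _ _).mpr ⟨fun h => ?_, h2⟩)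
        have h4 : x b = b' := hval h
        exact hxB b hb (by rw [h4]; exact hb')
      · refine (hH'adj _ _).mpr ((hHadj _ _).mpr ⟨fun h => ?_, h3⟩)
        have h4 : x b' = b := hval h
        exact hxB b' hb' (by rw [h4]; exact hb))
    (by rw [← hnV]; exact c9)
    (by
      rw [← card_pos, hQs]
      exact hs1)
  refine ⟨_, hbuild, ?_⟩
  have hBVc : BV.card = B.card := card_map _
  rw [hQs, hBVc]
  have hBn : (2 : ℝ) * B.card = n - s := by
    rw [hWc] at hBc
    have h1 : 2 * B.card + s = n := by omega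
    have h2 : ((2 * B.card + s : ℕ) : ℝ) = (n : ℝ) := by exact_mod_cast h1
    push_cast at h2
    linarith
  have hp : (0 : ℝ) ≤ (n : ℝ) ^ (1 / 2 - ε') := by positivity
  have hle : K + m + 1 ≤ s + B.card := by
    have h1 : ((K + m + 1 : ℕ) : ℝ) ≤ ((s + B.card : ℕ) : ℝ) := by
      push_cast
      have h2 : (0 : ℝ) ≤ B.card := by positivity
      have h3 : (0 : ℝ) ≤ s := by positivity
      linarith
    exact_mod_cast h1
  have hcast : ((s + B.card - K - m - 1 : ℕ) : ℝ) = (s : ℝ) + B.card - K - m - 1 := by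
    have h1 : s + B.card - K - m - 1 = s + B.card - (K + m + 1) := by omega
    rw [h1, Nat.cast_sub hle]
    push_cast
    ring
  rw [hcast]
  have h7 : (n : ℝ) ^ (1 / 2 - ε) ≤ (n : ℝ) ^ (1 / 2 - ε') :=
    Real.rpow_le_rpow_of_exponent_le hn1' (by linarith)
  linarith

end Pool.Agent.H163R2.CdV
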